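import Pool.Agent.Work.MP_70e905_nt.CL3.All3
import Pool.Agent.Work.MP_1a023c_nt.Common2

set_option autoImplicit false

namespace Pool.Agent.Work.MP_1a023c_nt.Cand3.CommonPowers

open Finset Classical

/-- For every `k ≥ 1` and `ε > 0` there is `J₀` such that for all `k` positive rationals `r i` and signs
`e i = ±1` and all `J ≥ J₀` at least `(1 / (R - 1) - ε) J` of the exponents `1 ≤ j ≤ J` are such that for ALL `i`
the number `(r i)^j` is `(p + e i) / (q + e i)` for infinitely many pairs of primes `(p, q)`. Here `R` is the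
Ramsey number: the least `N` such that every colouring of the pairs from `N` points with `k` colours has a
monochromatic set of `4` points (`R = 4` for `k = 1`). -/
theorem result (k : ℕ) (hk : 1 ≤ k) (ε : ℝ) (hε : 0 < ε) :
    ∃ J₀ : ℕ, ∀ (r : Fin k → ℚ) (e : Fin k → ℤ), (∀ i, 0 < r i) → (∀ i, e i = 1 ∨ e i = -1) →
      ∀ J : ℕ, J₀ ≤ J →
        (1 / (((sInf {N : ℕ | ∀ χ : Sym2 (Fin N) → Fin k, ∃ S : Finset (Fin N), #S = 4 ∧
          ∃ c : Fin k, ∀ x ∈ S, ∀ y ∈ S, x ≠ y → χ s(x, y) = c} : ℕ) : ℝ) - 1) - ε) * J ≤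
        (#{j ∈ Icc 1 J | ∀ i, {t : ℕ × ℕ | t.1.Prime ∧ t.2.Prime ∧
          r i ^ j = ((t.1 : ℚ) + e i) / ((t.2 : ℚ) + e i)}.Infinite} : ℝ) := by
  obtain ⟨L, hL, h⟩ := PoolRat.cluE PoolCL.clusterPlus_three
  exact PoolRat.common_ramsey (K := 3) (by norm_num) hL h k hk ε hε

end Pool.Agent.Work.MP_1a023c_nt.Cand3.CommonPowers
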