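import Pool.Agent.Work.MP_70e905_nt.CL3.All3
import Pool.Agent.Work.MP_1a023c_nt.CluE

set_option autoImplicit false

namespace Pool.Agent.Work.MP_1a023c_nt.Cand3.SubgroupDensity

open Finset Classical

/-- Let `e = ±1` and let `Γ` be a set of positive rationals, closed under division, with an element different
from `1` (a nontrivial subgroup of the positive rationals). For every `ε > 0` there is a finite nonempty subset `F`
of `Γ` such that for EVERY `g ∈ Γ` at least the proportion `1/3 - ε` of the elements `f` of `F` is such that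
`g f = (p + e) / (q + e)` for infinitely many pairs of primes `(p, q)`. -/
theorem result (e : ℤ) (he : e = 1 ∨ e = -1) (Γ : Set ℚ) (hpos : ∀ a ∈ Γ, 0 < a)
    (hdiv : ∀ a ∈ Γ, ∀ b ∈ Γ, a / b ∈ Γ) (hne : ∃ a ∈ Γ, a ≠ 1) (ε : ℝ) (hε : 0 < ε) :
    ∃ F : Finset ℚ, F.Nonempty ∧ (∀ f ∈ F, f ∈ Γ) ∧ ∀ g ∈ Γ,
      (1 / 3 - ε) * #F ≤ (#(F.filter (fun f => {t : ℕ × ℕ | t.1.Prime ∧ t.2.Prime ∧
        g * f = ((t.1 : ℚ) + e) / ((t.2 : ℚ) + e)}.Infinite)) : ℝ) := by
  obtain ⟨L, hL, h⟩ := PoolRat.cluE PoolCL.clusterPlus_three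
  have hP := PoolRat.pairs_of_cluE 3 L (by norm_num) e (h e he)
  have := PoolRat.gam (1 / ((3 : ℕ) : ℝ)) (by norm_num) e hP Γ hpos hdiv hne ε hε
  push_cast at this
  exact this

end Pool.Agent.Work.MP_1a023c_nt.Cand3.SubgroupDensity
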